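import Pool.Agent.H29.OC.NlcS

/-!
# OC: laws of pairs with a context

An event of two copies of a tuple which depends on the second copy through a projection only, and
the information which the times of a pair carry about the line.
-/

set_option autoImplicit false

namespace Pool.OC

open Finset Real
open Pool.Agent.H49.Ent Pool.Agent.H32.Dense Pool.STK Pool.KAF

section

variable {Ω Ω' S T U V β β' : Type} [Fintype Ω] [Fintype Ω']

theorem isLaw_dbl {p : Ω → ℝ} (hp : IsLaw p) (b : Ω → β) : IsLaw (dbl p b) :=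
  ⟨dbl_nonneg hp.nonneg, by rw [(dbl_fst (b := b) hp.nonneg).sum, hp.sum_one]⟩

omit [Fintype Ω'] in
theorem Marg.law_self {Q : Ω → ℝ} {P : Ω' → ℝ} {f : Ω → Ω'} (h : Marg Q P f) (ω : Ω') :
    law Q f ω = P ω := by
  have := h ω
  unfold law
  exact this

/-- Image of a conditional law. -/
theorem Pr_cond_marg {Q : Ω → ℝ} {P : Ω' → ℝ} {f : Ω → Ω'} (hm : Marg Q P f)
    (hQ : ∀ ω, 0 ≤ Q ω) (b : Ω → β) (c : Ω' → β') {ω : Ω}
    (hb : ∀ v, 0 < Q v → (b v = b ω ↔ c (f v) = c (f ω))) (F : Set Ω') :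
    Pr (cond Q b (b ω)) {v | f v ∈ F} = Pr (cond P c (c (f ω))) F := by
  classical
  unfold Pr
  rw [law_cond, law_cond]
  have e1 : law Q b (b ω) = law P c (c (f ω)) := by
    rw [← hm.law c]
    unfold law
    refine Finset.sum_congr rfl fun v _ => ?_
    rcases (hQ v).eq_or_lt with h | h
    · rw [← h]
      simp
    · have := hb v h
      by_cases h1 : b v = b ω
      · rw [if_pos h1, if_pos (this.mp h1)]
      · rw [if_neg h1, if_neg (fun h2 => h1 (this.mpr h2))]
  have e2 : law Q (fun v => (v ∈ {v | f v ∈ F}, b v)) (True, b ω) =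
      law P (fun u => (u ∈ F, c u)) (True, c (f ω)) := by
    rw [← hm.law (fun u => (u ∈ F, c u))]
    unfold law
    refine Finset.sum_congr rfl fun v _ => ?_
    rcases (hQ v).eq_or_lt with h | h
    · rw [← h]
      simp
    · have := hb v h
      simp only [Prod.mk.injEq, Set.mem_ofPred_eq]
      by_cases h1 : b v = b ω
      · have h2 := this.mp h1
        simp only [h1, h2, and_true]
      · have h2 : ¬ c (f v) = c (f ω) := fun h2 => h1 (this.mpr h2)
        simp only [h1, h2, and_false, if_false]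
  rw [e1, e2]

/-- An event of two copies which depends on the second one through `f` only. -/
theorem Pr_dbl_marg {Q : Ω → ℝ} {P : Ω' → ℝ} {f : Ω → Ω'} (hm : Marg Q P f)
    (hQ : ∀ ω, 0 ≤ Q ω) (b : Ω → β) (c : Ω' → β')
    (hb : ∀ v v', 0 < Q v → 0 < Q v' → (b v = b v' ↔ c (f v) = c (f v')))
    (E : Set Ω) (F : Ω → Set Ω') :
    Pr (dbl Q b) {z | z.1 ∈ E ∧ f z.2 ∈ F z.1} =
      Ex Q (Set.indicator E (fun w => Pr (cond P c (c (f w))) (F w))) := by
  classical
  rw [Pr_dbl]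
  unfold Ex
  refine Finset.sum_congr rfl fun w _ => ?_
  show Q w * Pr (cond Q b (b w)) {v | (w, v) ∈ {z : Ω × Ω | z.1 ∈ E ∧ f z.2 ∈ F z.1}} = _
  rcases (hQ w).eq_or_lt with h | h
  · rw [← h, zero_mul, zero_mul]
  · by_cases h1 : w ∈ E
    · rw [Set.indicator_of_mem h1, ← Pr_cond_marg hm hQ b c (fun v hv => hb v w hv h) (F w)]
      have e : {v : Ω | (w, v) ∈ {z : Ω × Ω | z.1 ∈ E ∧ f z.2 ∈ F z.1}} = {v | f v ∈ F w} := by
        ext v
        simp only [Set.mem_ofPred_eq, h1, true_and]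
      rw [e]
    · rw [Set.indicator_of_notMem h1]
      have e : {v : Ω | (w, v) ∈ {z : Ω × Ω | z.1 ∈ E ∧ f z.2 ∈ F z.1}} = ∅ := by
        ext v
        simp only [Set.mem_ofPred_eq, h1, false_and, Set.mem_empty_iff_false]
      rw [e]
      congr 1
      rw [Pr_eq]
      simp

/-- The time of a further copy carries little information about the line. -/
theorem MI_step {Ω₁ Λ τ σ : Type} [Fintype Ω₁] {Q : Ω₁ → ℝ} {P : Ω → ℝ} {L₁ : Ω₁ → Λ}
    {t₁ : Ω₁ → σ} {x : Ω₁ → U} {L : Ω → Λ} {T : Ω → σ} {r : σ → τ} (hQ : ∀ ω, 0 ≤ Q ω)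
    (hP : IsLaw P) (hL : ∀ z, law Q (fun w => (L₁ w, r (t₁ w))) z =
      law P (fun ω => (L ω, r (T ω))) z)
    (hx : Det Q x (fun w => r (t₁ w))) :
    Pool.KVA.MI (glue Q P (fun w => (L₁ w, r (t₁ w))) (fun ω => (L ω, r (T ω))))
      (fun v => L₁ v.1) (fun v => (x v.1, T v.2)) (fun _ => ()) ≤
      Pool.KVA.MI Q L₁ x (fun _ => ()) + Pool.KVA.MI P T L (fun _ => ()) := by
  classical
  set Z₁ : Ω₁ → Λ × τ := fun w => (L₁ w, r (t₁ w)) with hZ₁
  set Z₂ : Ω → Λ × τ := fun ω => (L ω, r (T ω)) with hZ₂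
  have hP0 := hP.nonneg
  have hg := glue_nonneg (Z₁ := Z₁) (Z₂ := Z₂) hQ hP0
  have m1 : Marg (glue Q P Z₁ Z₂) Q (fun v => v.1) := marg_fst hQ hL
  have m2 : Marg (glue Q P Z₁ Z₂) P (fun v => v.2) := marg_snd hP0 hL
  have heq : ∀ v, 0 < glue Q P Z₁ Z₂ v → L₁ v.1 = L v.2 ∧ r (t₁ v.1) = r (T v.2) := by
    intro v hv
    have h := ((glue_pos_iff hQ hP0 v).mp hv).2.2
    exact Prod.ext_iff.mp h
  set q := glue Q P Z₁ Z₂ with hq
  -- the entropy of the time given the context and the line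
  have c1 : CH q (fun v => T v.2) (fun v => (L₁ v.1, x v.1)) = CH P T Z₂ := by
    have h := CH_glue_snd hQ hP0 hL T x (Y := Z₂) (fun _ _ _ _ h => h)
    rw [← h]
    refine CH_congr hg (fun _ _ _ _ h => (Prod.ext_iff.mp h).1)
      (fun _ _ _ _ h => (Prod.ext_iff.mp h).1) ?_ ?_
    · intro v v' a a' h
      have h' := Prod.ext_iff.mp h
      have h1 := heq v a
      have h2 := heq v' a'
      have h3 : r (t₁ v.1) = r (t₁ v'.1) := hx _ _ (m1.pos hg a) (m1.pos hg a') h'.2
      refine Prod.ext (Prod.ext ?_ ?_) h'.2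
      · show L v.2 = L v'.2
        rw [← h1.1, ← h2.1]
        exact h'.1
      · show r (T v.2) = r (T v'.2)
        rw [← h1.2, ← h2.2, h3]
    · intro v v' a a' h
      have h' := Prod.ext_iff.mp h
      have h1 := heq v a
      have h2 := heq v' a'
      refine Prod.ext ?_ h'.2
      show L₁ v.1 = L₁ v'.1
      rw [h1.1, h2.1]
      exact (Prod.ext_iff.mp h'.1).1
  have c2 : CH q (fun v => T v.2) (fun v => x v.1) ≤ CH P T (fun ω => r (T ω)) := by
    rw [← m2.CH T (fun ω => r (T ω))]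
    refine CH_mono_cond hg ?_
    intro v v' a a' h
    show r (T v.2) = r (T v'.2)
    rw [← (heq v a).2, ← (heq v' a').2]
    exact hx _ _ (m1.pos hg a) (m1.pos hg a') h
  -- the information in `P`
  have c3 : CH P T (fun ω => r (T ω)) - CH P T Z₂ ≤ Pool.KVA.MI P T L (fun _ => ()) := by
    have e1 := CH_chain hP0 T (fun ω => r (T ω)) (fun _ => ())
    have e2 := CH_chain hP0 T (fun ω => r (T ω)) (fun ω => (L ω, ()))
    have e3 := CH_chain hP0 T L (fun _ => ())
    have d1 : CH P (fun ω => (T ω, r (T ω))) (fun _ => ()) = CH P T (fun _ => ()) := by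
      refine CH_congr hP0 (fun _ _ _ _ h => ?_) (fun _ _ _ _ h => ?_) (fun _ _ _ _ h => h)
        (fun _ _ _ _ h => h)
      · exact (Prod.ext_iff.mp (Prod.ext_iff.mp h).1).1
      · have := (Prod.ext_iff.mp h).1
        exact Prod.ext this (congrArg r this)
    have d2 : CH P (fun ω => (T ω, r (T ω))) (fun ω => (L ω, ())) =
        CH P T (fun ω => (L ω, ())) := by
      refine CH_congr hP0 (fun _ _ _ _ h => ?_) (fun _ _ _ _ h => ?_) (fun _ _ _ _ h => h)
        (fun _ _ _ _ h => h)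
      · exact (Prod.ext_iff.mp (Prod.ext_iff.mp h).1).1
      · have := (Prod.ext_iff.mp h).1
        exact Prod.ext this (congrArg r this)
    have d3 : CH P T (fun ω => (r (T ω), ())) = CH P T (fun ω => r (T ω)) := by
      refine CH_congr hP0 (fun _ _ _ _ h => (Prod.ext_iff.mp h).1)
        (fun _ _ _ _ h => (Prod.ext_iff.mp h).1) (fun _ _ _ _ h => (Prod.ext_iff.mp h).1)
        (fun _ _ _ _ h => Prod.ext h rfl)
    have d4 : CH P T (fun ω => (r (T ω), (L ω, ()))) = CH P T Z₂ := by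
      refine CH_congr hP0 (fun _ _ _ _ h => (Prod.ext_iff.mp h).1)
        (fun _ _ _ _ h => (Prod.ext_iff.mp h).1) ?_ ?_ <;>
      · intro ω ω' _ _ h
        simp only [hZ₂, Prod.mk.injEq] at h ⊢
        tauto
    have d5 : CH P (fun ω => r (T ω)) (fun ω => (L ω, ())) ≤
        CH P (fun ω => r (T ω)) (fun _ => ()) :=
      CH_mono_cond hP0 (fun _ _ _ _ _ => rfl)
    unfold Pool.KVA.MI
    have d6 : CH P (fun ω => (T ω, L ω)) (fun _ => ()) =
        CH P L (fun _ => ()) + CH P T (fun ω => (L ω, ())) := e3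
    linarith
  -- the chain rule
  have e1 := CH_chain hg (fun v => T v.2) (fun v => x v.1) (fun _ => ())
  have e2 := CH_chain hg (fun v => T v.2) (fun v => (L₁ v.1, x v.1)) (fun _ => ())
  have d1 : CH q (fun v => T v.2) (fun v => (x v.1, ())) = CH q (fun v => T v.2) (fun v => x v.1) :=
    CH_congr hg (fun _ _ _ _ h => (Prod.ext_iff.mp h).1)
      (fun _ _ _ _ h => (Prod.ext_iff.mp h).1) (fun _ _ _ _ h => (Prod.ext_iff.mp h).1)
      (fun _ _ _ _ h => Prod.ext h rfl)
  have d2 : CH q (fun v => T v.2) (fun v => ((L₁ v.1, x v.1), ())) =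
      CH q (fun v => T v.2) (fun v => (L₁ v.1, x v.1)) :=
    CH_congr hg (fun _ _ _ _ h => (Prod.ext_iff.mp h).1)
      (fun _ _ _ _ h => (Prod.ext_iff.mp h).1) (fun _ _ _ _ h => (Prod.ext_iff.mp h).1)
      (fun _ _ _ _ h => Prod.ext h rfl)
  have d3 : CH q (fun v => (x v.1, T v.2)) (fun _ => ()) =
      CH q (fun v => (T v.2, x v.1)) (fun _ => ()) := by
    refine CH_congr hg ?_ ?_ (fun _ _ _ _ h => h) (fun _ _ _ _ h => h) <;>
    · intro ω ω' _ _ h
      simp only [Prod.mk.injEq] at h ⊢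
      tauto
  have d4 : CH q (fun v => (L₁ v.1, (x v.1, T v.2))) (fun _ => ()) =
      CH q (fun v => (T v.2, (L₁ v.1, x v.1))) (fun _ => ()) := by
    refine CH_congr hg ?_ ?_ (fun _ _ _ _ h => h) (fun _ _ _ _ h => h) <;>
    · intro ω ω' _ _ h
      simp only [Prod.mk.injEq] at h ⊢
      tauto
  have f1 : CH q (fun v => L₁ v.1) (fun _ => ()) = CH Q L₁ (fun _ => ()) := m1.CH L₁ (fun _ => ())
  have f2 : CH q (fun v => x v.1) (fun _ => ()) = CH Q x (fun _ => ()) := m1.CH x (fun _ => ())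
  have f3 : CH q (fun v => (L₁ v.1, x v.1)) (fun _ => ()) =
      CH Q (fun w => (L₁ w, x w)) (fun _ => ()) := m1.CH (fun w => (L₁ w, x w)) (fun _ => ())
  show CH q (fun v => L₁ v.1) (fun _ => ()) + CH q (fun v => (x v.1, T v.2)) (fun _ => ()) -
    CH q (fun v => (L₁ v.1, (x v.1, T v.2))) (fun _ => ()) ≤
    (CH Q L₁ (fun _ => ()) + CH Q x (fun _ => ()) - CH Q (fun w => (L₁ w, x w)) (fun _ => ())) + _
  rw [d3, d4, e1, e2, d1, d2, f1, f2, f3, c1]
  linarith

end

end Pool.OC
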