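import Pool.Agent.H43.OC.RW

/-!
# OC: the row RWA
-/

set_option autoImplicit false

namespace Pool.OC

open Finset Real
open Pool.Agent.H49.Ent Pool.Agent.H32.Dense Pool.STK Pool.KAF

/-- The last binary digit. -/
def bt (z : ℤ) : Bool := decide (z % 2 = 1)

theorem bt_inj {z z' : ℤ} (h1 : z / 2 = z' / 2) (h2 : bt z = bt z') : z = z' := by
  unfold bt at h2
  have h3 : (z % 2 = 1) ↔ (z' % 2 = 1) := by
    constructor
    · intro h
      rw [decide_eq_true h] at h2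
      exact of_decide_eq_true h2.symm
    · intro h
      rw [decide_eq_true h] at h2
      exact of_decide_eq_true h2
  omega

theorem floor_two_mul_div (y : ℝ) : ⌊2 * y⌋ / 2 = ⌊y⌋ := by
  have h1 := Int.floor_le (2 * y)
  have h2 := Int.lt_floor_add_one (2 * y)
  have h3 := Int.floor_le y
  have h4 := Int.lt_floor_add_one y
  have h5 : 2 * ⌊y⌋ ≤ ⌊2 * y⌋ := by
    rw [Int.le_floor]
    push_cast
    linarith
  have h6 : ⌊2 * y⌋ < 2 * ⌊y⌋ + 2 := by
    rw [Int.floor_lt]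
    push_cast
    linarith
  omega

theorem floor_pow_succ (s : ℕ) (x : ℝ) : ⌊(2 : ℝ) ^ (s + 1) * x⌋ / 2 = ⌊(2 : ℝ) ^ s * x⌋ := by
  rw [← floor_two_mul_div ((2 : ℝ) ^ s * x)]
  congr 2
  ring

theorem floor_zpow_succ (s : ℕ) (a : ℤ) (x : ℝ) :
    ⌊(2 : ℝ) ^ (((s + 1 : ℕ) : ℤ) + a) * x⌋ / 2 = ⌊(2 : ℝ) ^ ((s : ℤ) + a) * x⌋ := by
  rw [← floor_two_mul_div ((2 : ℝ) ^ ((s : ℤ) + a) * x)]
  congr 2
  have : ((s + 1 : ℕ) : ℤ) + a = ((s : ℤ) + a) + 1 := by
    push_cast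
    ring
  rw [this, zpow_add_one₀ (by norm_num)]
  ring

/-- The cell of stage A in terms of the finer cell. -/
theorem GA_succ (d : Dat) (m : d.Lam → ℤ) (s : ℕ) (l : d.Lam) :
    d.GA m s l = ((d.GA m (s + 1) l).1, (d.GA m (s + 1) l).2.1, (d.GA m (s + 1) l).2.2.1 / 2,
      (d.GA m (s + 1) l).2.2.2 / 2) := by
  unfold Dat.GA
  simp only
  rw [floor_pow_succ, floor_zpow_succ]

/-- RWA. -/
theorem rwa_thm : RWAStmt := by
  intro d A J m n k k₁ e δ ι hOK hH1 hιδ hm hRow i _hi q W hW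
  have hP := hOK.law
  have hP0 := hP.nonneg
  have hQl : IsLaw (d.Qp i) := isLaw_dbl hP _
  have m1 : Marg (d.Qp i) d.P (fun w => w.1) := dbl_fst hP0
  have m2 : Marg (d.Qp i) d.P (fun w => w.2) := dbl_snd hP0
  have hX0 : (0 : ℝ) ≤ d.X := Nat.cast_nonneg _
  have hLT : ∀ v, 0 < d.Qp i v → d.L v.1 = d.L v.2 ∧ d.Ti i v.1 = d.Ti i v.2 := fun v hv =>
    Prod.ext_iff.mp (dbl_eq (b := fun ω => (d.L ω, d.Ti i ω)) hP0 hv)
  set r : d.Tau → ℤ := fun t => ⌊(2 : ℝ) ^ i * d.th t⌋ with hr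
  have hTi : d.Ti i = fun ω => r (d.T ω) := rfl
  have hMI : Pool.KVA.MI (d.Qp i) (fun v => d.L v.1) (fun v => (d.T v.1, d.T v.2))
      (fun _ => ()) ≤ δ * d.X := by
    have h1 := MI_step (Q := d.P) (P := d.P) (L₁ := d.L) (t₁ := d.T) (x := d.T) (L := d.L)
      (T := d.T) (r := r) hP0 hP (fun _ => rfl) (fun _ _ _ _ h => congrArg r h)
    have h2 : Pool.KVA.MI d.P d.L d.T (fun _ => ()) = Pool.KVA.MI d.P d.T d.L (fun _ => ()) := by
      unfold Pool.KVA.MI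
      have h3 : CH d.P (fun ω => (d.L ω, d.T ω)) (fun _ => ()) =
          CH d.P (fun ω => (d.T ω, d.L ω)) (fun _ => ()) := by
        refine CH_congr hP0 ?_ ?_ (fun _ _ _ _ h => h) (fun _ _ _ _ h => h) <;>
        · intro ω ω' _ _ h
          simp only [Prod.mk.injEq] at h ⊢
          tauto
      rw [h3]
      ring
    rw [h2] at h1
    have h4 := hH1.1
    have h5 : (2 * ι) * (d.X : ℝ) ≤ δ * d.X := mul_le_mul_of_nonneg_right hιδ hX0
    refine le_trans h1 ?_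
    linarith
  have key := hRow (d.Om × d.Om) Unit (d.Tau × d.Tau) ℤ (fun _ => ℤ × ℤ × ℤ × ℤ) (d.Qp i)
    (fun w => w.1) (fun w => w.2) (fun _ => ()) (fun w => (d.T w.1, d.T w.2)) m
    (fun s w => d.GA m s (d.L w.1))
    (fun s w => (bt (d.GA m (s + 1) (d.L w.1)).2.2.1, bt (d.GA m (s + 1) (d.L w.1)).2.2.2, false))
    (fun w => q (m (d.L w.1)) (d.T w.1) (d.T w.2))
    {w | (m (d.L w.1), d.T w.1, d.T w.2) ∈ W} (8 * n) (d.X - 8 * n) hQl
    (fun ω => Marg.law_self m1 ω) (fun ω => Marg.law_self m2 ω) (fun v hv => (hLT v hv).1.symm)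
    (fun v v' _ _ h => Prod.ext rfl h)
    hMI
    (by rw [m1.H (fun ω => m (d.L ω))]; exact hm)
    (by
      intro s _ v v' _ _ h
      have h1 := Prod.ext_iff.mp (Prod.ext_iff.mp h).2
      have h2 : m (d.L v.1) = m (d.L v'.1) := h1.1
      have h3 : d.V (d.L v.1) = d.V (d.L v'.1) := h1.2
      unfold Dat.V at h3
      simp only [Prod.mk.injEq] at h3
      show d.GA m s (d.L v.1) = d.GA m s (d.L v'.1)
      unfold Dat.GA Dat.yR Dat.beR
      rw [h2, h3.1, h3.2.1, h3.2.2])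
    (by
      intro s _ v v' _ _ h
      have h1 := Prod.ext_iff.mp h
      have h2 : d.GA m s (d.L v.1) = d.GA m s (d.L v'.1) := h1.1
      have h3 : (bt (d.GA m (s + 1) (d.L v.1)).2.2.1, bt (d.GA m (s + 1) (d.L v.1)).2.2.2, false) =
        (bt (d.GA m (s + 1) (d.L v'.1)).2.2.1, bt (d.GA m (s + 1) (d.L v'.1)).2.2.2, false) := h1.2
      rw [GA_succ d m s (d.L v.1), GA_succ d m s (d.L v'.1)] at h2
      simp only [Prod.mk.injEq] at h2 h3
      show d.GA m (s + 1) (d.L v.1) = d.GA m (s + 1) (d.L v'.1)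
      exact Prod.ext h2.1 (Prod.ext h2.2.1 (Prod.ext (bt_inj h2.2.2.1 h3.1)
        (bt_inj h2.2.2.2 h3.2.1))))
    (by
      intro s _ v v' _ _ h
      have h1 : d.GA m (s + 1) (d.L v.1) = d.GA m (s + 1) (d.L v'.1) := h
      have h2 : d.GA m s (d.L v.1) = d.GA m s (d.L v'.1) := by
        rw [GA_succ d m s (d.L v.1), GA_succ d m s (d.L v'.1), h1]
      refine Prod.ext h2 ?_
      show (bt (d.GA m (s + 1) (d.L v.1)).2.2.1, bt (d.GA m (s + 1) (d.L v.1)).2.2.2, false) =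
        (bt (d.GA m (s + 1) (d.L v'.1)).2.2.1, bt (d.GA m (s + 1) (d.L v'.1)).2.2.2, false)
      rw [h1])
    (by
      intro v v' _ _ h
      have h1 := Prod.ext_iff.mp h
      have h2 := Prod.ext_iff.mp h1.1
      have h3 : m (d.L v.1) = m (d.L v'.1) := h1.2
      have h4 : d.T v.1 = d.T v'.1 := h2.1
      have h5 : d.T v.2 = d.T v'.2 := h2.2
      show q (m (d.L v.1)) (d.T v.1) (d.T v.2) = q (m (d.L v'.1)) (d.T v'.1) (d.T v'.2)
      rw [h3, h4, h5])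
    (by
      intro v v' _ _ h
      have h1 := Prod.ext_iff.mp h
      have h2 := Prod.ext_iff.mp h1.1
      have h3 : m (d.L v.1) = m (d.L v'.1) := h1.2
      have h4 : d.T v.1 = d.T v'.1 := h2.1
      have h5 : d.T v.2 = d.T v'.2 := h2.2
      show ((m (d.L v.1), d.T v.1, d.T v.2) ∈ W) = ((m (d.L v'.1), d.T v'.1, d.T v'.2) ∈ W)
      rw [h3, h4, h5])
    (by
      intro s v v' hs hv hv' hvW _ _ hG
      exact hW v v'.1 s hv (m1.pos hQl.nonneg hv') hvW hs hG.symm)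
    (Nat.sub_le _ _)
  refine le_trans (Finset.sum_le_sum fun s _ => le_of_eq ?_) key
  have h := Pr_dbl_marg m1 hQl.nonneg
    (fun v => ((), m (d.L v.1), d.GA m s (d.L v.1))) (fun v => d.GA m s (d.L v))
    (fun v v' _ _ => by
      constructor
      · intro h
        exact (Prod.ext_iff.mp (Prod.ext_iff.mp h).2).2
      · intro h
        have h1 : m (d.L v.1) = m (d.L v'.1) := (Prod.ext_iff.mp h).1
        show ((), m (d.L v.1), d.GA m s (d.L v.1)) = ((), m (d.L v'.1), d.GA m s (d.L v'.1))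
        have h2 : d.GA m s (d.L v.1) = d.GA m s (d.L v'.1) := h
        rw [h1, h2])
    {w : d.Om × d.Om | (m (d.L w.1), d.T w.1, d.T w.2) ∈ W ∧
        0 ≤ (s : ℤ) + q (m (d.L w.1)) (d.T w.1) (d.T w.2) ∧
        ((s : ℤ) + q (m (d.L w.1)) (d.T w.1) (d.T w.2)).toNat ∈ J w.1}
    (fun w => {v | (2 : ℝ) ^ (-((s : ℤ) + q (m (d.L w.1)) (d.T w.1) (d.T w.2) + k₁)) ≤
          |d.ZR (d.T w.1) (d.T w.2) (d.L w.1) - d.ZR (d.T w.1) (d.T w.2) (d.L v)|})
  rw [← h]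
  congr 1
  ext z
  simp only [Set.mem_ofPred_eq]
  tauto

end Pool.OC
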