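import Pool.Agent.H43.OC.NlsA

/-!
# The row NLS of theorem OCS: no partners far from the reference
-/

set_option autoImplicit false

namespace Pool.OCS.N43

open Finset Real
open Pool.Agent.H49.Ent Pool.Agent.H32.Dense Pool.STK Pool.KAF

variable {d : Dat}

/-- Images of the triples. -/
theorem Q3_marg (hP : ∀ ω, 0 ≤ d.P ω) (j i : ℕ) :
    Marg (d.Q3 j i) (d.Qp j) (fun u => u.1) ∧
    Marg (d.Q3 j i) (d.Qp i) (fun u => (u.1.1, u.2)) ∧
    Marg (d.Q3 j i) d.P (fun u => u.1.1) ∧ (∀ u, 0 ≤ d.Q3 j i u) := by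
  have hQ0 : ∀ w, 0 ≤ d.Qp j w := fun w => dbl_nonneg hP w
  have h1 : Marg (d.Qp j) d.P (fun w => w.1) := dbl_fst hP
  have hl : ∀ z, law (d.Qp j) (fun w => (d.L w.1, d.Ti i w.1)) z =
      law d.P (fun ω => (d.L ω, d.Ti i ω)) z := fun z =>
    h1.law (fun ω => (d.L ω, d.Ti i ω)) z
  have h2 : Marg (d.Q3 j i) (d.Qp j) (fun u => u.1) := marg_fst hQ0 hl
  refine ⟨h2, ?_, h2.comp h1, fun u => glue_nonneg hQ0 hP u⟩
  have h3 : Marg d.P d.P (fun ω => ω) := by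
    classical
    intro ω
    rw [Finset.sum_eq_single ω]
    · simp
    · intro b _ hb
      simp [hb]
    · intro h
      exact absurd (Finset.mem_univ _) h
  exact Marg.glue (Z₁ := fun ω => (d.L ω, d.Ti i ω)) (Z₂ := fun ω => (d.L ω, d.Ti i ω)) h1 h3

/-- The relative direction in terms of the difference quotients. -/
theorem gv_ch {w : d.Om × d.Om} {ω : d.Om} (h : d.ta (w.1, ω) ≠ 0) :
    ‖gv d w ω‖ = |d.ta (w.1, ω)| * ‖d.ch (w.1, ω) - d.ch w‖ := by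
  have e1 : gv d w ω = d.ta (w.1, ω) • (d.ch (w.1, ω) - d.ch w) := by
    ext r
    unfold gv
    rw [Pi.smul_apply, Pi.sub_apply, smul_eq_mul, mul_sub]
    congr 1
    unfold Dat.ch
    rw [mul_div_cancel₀ _ h]
  rw [e1, norm_smul, Real.norm_eq_abs]

/-- Size of the relative direction. -/
theorem gv_le {A : ℕ} (hOK : d.OK A) {m : ℤ} {j k' : ℕ} {w : d.Om × d.Om} {ω : d.Om}
    (hB : w ∈ Bg d j k' m) : ‖gv d w ω‖ ≤ 2 + (2 : ℝ) ^ (-m) := by
  refine (pi_norm_le_iff_of_nonneg (by positivity)).2 fun r => ?_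
  unfold gv
  rw [Real.norm_eq_abs]
  refine (abs_sub _ _).trans ?_
  have h1 : |d.sg (w.1, ω) r| ≤ 2 := by
    unfold Dat.sg
    have h2 := hOK.hS (d.T ω) r
    have h3 := hOK.hS (d.T w.1) r
    have h4 := abs_sub (d.S (d.T ω) r) (d.S (d.T w.1) r)
    simp only
    linarith
  have h2 : |d.ta (w.1, ω)| ≤ 1 := by
    unfold Dat.ta
    have h2 := hOK.hth (d.T ω)
    have h3 := hOK.hth (d.T w.1)
    simp only
    rw [abs_le]
    constructor <;> linarith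
  have h3 := mul_le_mul h2 (Bg_ch hB r) (abs_nonneg _) zero_le_one
  rw [one_mul] at h3
  rw [abs_mul]
  linarith

/-- The bad triples at one scale. -/
theorem nls_scale {A n h i₀ k₆ lam : ℕ} {m : ℤ} {mu : d.Om × d.Om → ℤ} {J : d.Om → Set ℕ}
    {j i k' a k k₁ : ℕ} {e ε u : ℝ} (hOK : d.OK A) (hS : Siz d n h m)
    (hL : LabS d n i₀ k₆ lam m mu) (hk₆ : 2 ≤ k₆) (hi₀ : i₀ ≤ n) (hj : n ≤ j) (hi : i₀ ≤ i)
    (hin : i < 2 * n) (hia : a + 5 + lam ≤ i) (hkn : k' ≤ n) (hk : 4 ≤ k) (hk₁ : a + 1 ≤ k₁)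
    (hu : 0 < u) (hRow : RowS d J mu lam n j k k₁ e) (hJ : d.toR.J1 J h u ε ∅)
    (hSPS : SPS d m mu lam n j k' a ε) :
    Pr (d.Q3 j i) (NB d m mu j k' a i) ≤ ε + 4 / u * (e + ε) := by
  classical
  have h1h := hS.h1
  have hhn := hS.hn
  have hnX := hS.nX
  have hX : (0 : ℝ) < d.X := by
    have : 0 < d.X := by omega
    exact_mod_cast this
  have hP := hOK.law.nonneg
  obtain ⟨hm1, -, hm3, hQ0⟩ := Q3_marg (d := d) hP j i
  have hQj : ∀ w, 0 ≤ d.Qp j w := fun w => dbl_nonneg hP w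
  have hRi := hRow i (by omega)
    (fun _ t₀ t₁ t => Pool.OC.sc ‖fun r : Fin 2 => (d.S t r - d.S t₀ r) -
      (d.th t - d.th t₀) * ((d.S t₁ r - d.S t₀ r) / (d.th t₁ - d.th t₀))‖)
    {p | (‖fun r : Fin 2 => d.S p.2.2.1 r - d.S p.2.1 r‖ ≤
          (2 : ℝ) ^ (-m) * |d.th p.2.2.1 - d.th p.2.1| ∧
        (2 : ℝ) ^ (-((j : ℤ) + k')) ≤ |d.th p.2.2.1 - d.th p.2.1|) ∧
      (2 : ℝ) ^ (-((i : ℤ) + k')) ≤ |d.th p.2.2.2 - d.th p.2.1| ∧
      (2 : ℝ) ^ ((a : ℤ) + 4 - p.1) * |d.th p.2.2.2 - d.th p.2.1| <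
        ‖fun r : Fin 2 => (d.S p.2.2.2 r - d.S p.2.1 r) -
      (d.th p.2.2.2 - d.th p.2.1) * ((d.S p.2.2.1 r - d.S p.2.1 r) /
        (d.th p.2.2.1 - d.th p.2.1))‖} ?_
  rotate_left
  · intro w v s hw _ hW _ hG
    obtain ⟨-, g1, g2, -⟩ := Q3_supp hP hw
    exact (nls_pt hL hk₆ (by omega : i₀ ≤ j) hi hia hk hk₁ g1 g2 (show w ∈ NB d m mu j k' a i
      from hW) hG).1
  obtain ⟨M, hM0, -, hMs, hMX⟩ := hSPS
  set Gb : Set d.Om := {ω | ∃ j : ℕ, j ∉ (∅ : Set ℕ) ∧ (j + 2) * h ≤ d.X ∧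
    (Set.ncard {r | r ∈ J ω ∧ j * h ≤ r ∧ r < (j + 1) * h} : ℝ) < u * h} with hGb
  set Sb : Set ((d.Om × d.Om) × d.Om) :=
    {w | w ∈ NB d m mu j k' a i ∧ w.1.1 ∉ Gb} with hSb
  have h1 : Pr (d.Q3 j i) (NB d m mu j k' a i) ≤
      Pr (d.Q3 j i) {w | w.1.1 ∈ Gb} + Pr (d.Q3 j i) Sb := by
    refine le_trans (Pr_mono hQ0 fun w _ hw => ?_) (Pr_union_le hQ0 _ _)
    by_cases hg : w.1.1 ∈ Gb
    · exact Or.inl hg
    · exact Or.inr ⟨hw, hg⟩
  have h2 : Pr (d.Q3 j i) {w | w.1.1 ∈ Gb} = Pr d.P Gb := hm3.law (fun ω => ω ∈ Gb) True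
  have h3 : Pr d.P Gb ≤ ε := hJ
  have h4 : Pr (d.Q3 j i) Sb ≤ 4 / u * (e + ε) := by
    refine Pool.M5.N2.nlc_ker hQ0 (Finset.Ico (8 * n) (d.X - 8 * n)) _ _
      (fun s w => Set.indicator (Bg d j k' m) (M s) w.1) hX hu hRi
      ?_ (fun s w => Set.indicator_nonneg (fun _ _ => hM0 s _) _) ?_ Sb ?_
    · refine le_trans (le_of_eq ?_) hMX
      exact Finset.sum_congr rfl fun s _ => hm1.ex (Set.indicator (Bg d j k' m) (M s))
    · -- at every row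
      intro s hs w hw hQw
      obtain ⟨g0, g1, g2, -⟩ := Q3_supp hP hQw
      have hwB : w ∈ NB d m mu j k' a i := hw.1
      have hg0 : 0 < ‖gv d w.1 w.2‖ := lt_of_le_of_lt (by positivity) hwB.2.2
      have hMw := hMs s hs w.1 g0 hwB.1 (gv d w.1 w.2) hg0
      have hc0 : ∀ v, 0 ≤ cond (d.Qp j) (d.GS mu lam s) (d.GS mu lam s w.1) v :=
        fun v => cond_nonneg hQj _ _ v
      have hMi : Set.indicator (Bg d j k' m) (M s) w.1 = M s w.1 :=
        Set.indicator_of_mem hwB.1 _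
      simp only [hMi]
      refine le_trans ?_ (add_le_add le_rfl hMw)
      have e2 : ∑ v, cond (d.Qp j) (d.GS mu lam s) (d.GS mu lam s w.1) v = 1 :=
        sum_cond (d.Qp j) _ (law_pos hQj (d.GS mu lam s) g0).ne'
      rw [Pr_eq, Pr_eq, ← e2, ← Finset.sum_add_distrib]
      refine Finset.sum_le_sum fun v _ => ?_
      rcases (hc0 v).eq_or_lt with h0 | h0
      · rw [← h0]
        simp
      obtain ⟨-, hg⟩ := (cond_pos_iff hQj _ _ v).1 h0
      rcases (nls_pt hL hk₆ (by omega : i₀ ≤ j) hi hia hk hk₁ g1 g2 hwB hg).2 with hh | hh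
      · rw [if_pos (show v ∈ {v | |∑ r, gv d w.1 w.2 r *
          (d.pt (d.T w.1.1) (d.L v.1) r - d.pt (d.T w.1.1) (d.L w.1.1) r)| <
          ‖gv d w.1 w.2‖ * (2 : ℝ) ^ (-((s : ℤ) + a))} from hh)]
        split_ifs <;> linarith
      · refine le_add_of_le_of_nonneg (le_of_eq (if_pos ?_).symm) ?_
        · exact hh
        · split_ifs
          · exact h0.le
          · exact le_rfl
    · -- many rows
      intro w hw _
      obtain ⟨⟨hB, hta, hgv⟩, hwG⟩ := hw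
      have hg0 : 0 < ‖gv d w.1 w.2‖ := lt_of_le_of_lt (by positivity) hgv
      have hg0' : 0 < |‖gv d w.1 w.2‖| := by rw [abs_norm]; exact hg0
      have hgl := gv_le hOK (ω := w.2) hB
      have hmu := hL.hi w.1
      have hm1' := hS.m1
      have hm2' := hS.m2
      have q1 : -(8 * n : ℤ) ≤ Pool.OC.sc ‖gv d w.1 w.2‖ := by
        have := Pool.M5.N2.le_sc (a := -(4 * n + 3 : ℤ)) hg0' (by
          rw [abs_norm, neg_neg]
          refine lt_of_le_of_lt hgl ?_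
          have e1 : (2 : ℝ) ^ (-m) ≤ (2 : ℝ) ^ (4 * n + 2 : ℤ) :=
            zpow_le_zpow_right₀ (by norm_num) (by omega)
          have e2 : (2 : ℝ) ^ (4 * n + 3 : ℤ) = 2 * (2 : ℝ) ^ (4 * n + 2 : ℤ) := by
            rw [show (4 * n + 3 : ℤ) = 1 + (4 * n + 2) by ring,
              zpow_add₀ (by norm_num : (2 : ℝ) ≠ 0), zpow_one]
          have e3 : (2 : ℝ) < (2 : ℝ) ^ (4 * n + 2 : ℤ) := by
            calc (2 : ℝ) < (2 : ℝ) ^ (2 : ℤ) := by norm_num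
              _ ≤ _ := zpow_le_zpow_right₀ (by norm_num) (by omega)
          rw [e2]
          linarith)
        omega
      have q2 : Pool.OC.sc ‖gv d w.1 w.2‖ ≤ 7 * n := by
        have := Pool.M5.N2.sc_le (x := ‖gv d w.1 w.2‖) (a := 6 * n) (by
          rw [abs_norm]
          refine le_trans ?_ hgv.le
          have e1 := mul_le_mul_of_nonneg_left hta
            (by positivity : (0 : ℝ) ≤ (2 : ℝ) ^ ((a : ℤ) + 4 - mu w.1))
          refine le_trans ?_ e1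
          rw [← zpow_add₀ (by norm_num)]
          exact zpow_le_zpow_right₀ (by norm_num) (by omega))
        omega
      have h7 := Pool.M5.N2.count_lev (J w.1.1) h1h (by omega) hnX hu.le (fun j hj => by
        by_contra hcon
        exact hwG ⟨j, fun hh => hh, hj, not_le.1 hcon⟩) q1 q2
      refine h7.trans (le_of_eq ?_)
      congr 1
      congr 1
      ext s
      constructor
      · rintro ⟨g1, g2, g3⟩
        exact ⟨g1, ⟨hB, hta, hgv⟩, g2, g3⟩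
      · rintro ⟨g1, -, g2, g3⟩
        exact ⟨g1, g2, g3⟩
  rw [h2] at h1
  linarith

/-- **NLS.** -/
theorem _root_.Pool.OCS.nls_thm : NLSStmt := by
  classical
  intro u ε₉ hu hu1 hε₉
  refine ⟨u * ε₉ / 32, by positivity, ?_⟩
  intro A a k'
  refine ⟨a + 1, k' + 64 * (a + 8), 2, u * ε₉ / 32, by positivity, ?_⟩
  intro d J m mu n h g i₀ k₆ lam j k k₁ e hOK hS hn hg hlam hi₀ hi₀' hj hj2 hk₆ hL hk hk₁ he
    hRow hJ hSPS hTB
  have hP := hOK.law.nonneg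
  have hnX := hS.nX
  have hn0 : (0 : ℝ) ≤ n := Nat.cast_nonneg _
  set ε₈ : ℝ := u * ε₉ / 32 with hε₈
  have hε0 : 0 < ε₈ := by rw [hε₈]; positivity
  unfold NLS
  have hstep : ∀ i ∈ Finset.Ico i₀ (2 * n), Pr (d.Q3 j i) {w | w.1 ∈ Bg d j k' m ∧
      (2 : ℝ) ^ ((a : ℤ) + 4 - mu w.1) < ‖d.ch (w.1.1, w.2) - d.ch w.1‖} ≤
      Pr (d.Qp i) {w | |d.ta w| < (2 : ℝ) ^ (-((i : ℤ) + k'))} + (ε₈ + 4 / u * (ε₈ + ε₈)) := by
    intro i hi
    rw [Finset.mem_Ico] at hi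
    obtain ⟨-, hm2, -, hQ0⟩ := Q3_marg (d := d) hP j i
    have h1 := nls_scale (i := i) hOK hS hL hk₆ hi₀' hj hi.1 hi.2 (by omega) (by omega)
      (by omega) hk₁ hu hRow hJ hSPS
    have h2 : Pr (d.Q3 j i) {w | |d.ta (w.1.1, w.2)| < (2 : ℝ) ^ (-((i : ℤ) + k'))} =
        Pr (d.Qp i) {w | |d.ta w| < (2 : ℝ) ^ (-((i : ℤ) + k'))} :=
      hm2.law (fun w => w ∈ {w | |d.ta w| < (2 : ℝ) ^ (-((i : ℤ) + k'))}) True
    have h3 : 4 / u * (e + ε₈) ≤ 4 / u * (ε₈ + ε₈) :=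
      mul_le_mul_of_nonneg_left (by linarith) (by positivity)
    rw [← h2]
    refine le_trans (le_trans (Pr_mono hQ0 fun w _ hw => ?_) (Pr_union_le hQ0 _ _))
      (add_le_add le_rfl (h1.trans (by linarith)))
    by_cases hc : |d.ta (w.1.1, w.2)| < (2 : ℝ) ^ (-((i : ℤ) + k'))
    · exact Or.inl hc
    · right
      rw [not_lt] at hc
      have h0 : 0 < |d.ta (w.1.1, w.2)| := lt_of_lt_of_le (by positivity) hc
      refine ⟨hw.1, hc, ?_⟩
      rw [gv_ch (abs_pos.1 h0), mul_comm]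
      exact mul_lt_mul_of_pos_left hw.2 h0
  refine (Finset.sum_le_sum hstep).trans ?_
  rw [Finset.sum_add_distrib, Finset.sum_const, Nat.card_Ico, nsmul_eq_mul]
  have h1 := hTB i₀ (2 * n) (by omega) (by omega)
  have h2 : ((2 * n - i₀ : ℕ) : ℝ) ≤ 2 * n := by
    have : 2 * n - i₀ ≤ 2 * n := Nat.sub_le _ _
    exact_mod_cast this
  have h3 : ε₈ * (((2 * n : ℕ) : ℝ) - i₀) ≤ ε₈ * (2 * n) := by
    refine mul_le_mul_of_nonneg_left ?_ hε0.le
    push_cast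
    have : (0 : ℝ) ≤ i₀ := Nat.cast_nonneg _
    linarith
  have h4 : 0 ≤ ε₈ + 4 / u * (ε₈ + ε₈) := by positivity
  have h5 := mul_le_mul_of_nonneg_right h2 h4
  have h6 : 4 / u * (ε₈ + ε₈) = ε₉ / 4 := by
    rw [hε₈]
    field_simp
    ring
  have h7 : ε₈ ≤ ε₉ / 32 := by
    rw [hε₈]
    have := mul_le_mul_of_nonneg_right hu1 hε₉.le
    linarith
  have h8 : ε₈ * (2 * n) + 2 * n * (ε₈ + 4 / u * (ε₈ + ε₈)) ≤ ε₉ * n := by
    rw [h6]
    have h9 := mul_le_mul_of_nonneg_right h7 hn0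
    have h10 : 0 ≤ ε₉ * n := by positivity
    linarith
  linarith

end Pool.OCS.N43
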