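import Pool.Agent.H21.M5.NlcA
import Pool.Agent.H88.OCS.Stmts

/-!
# The row NLS of theorem OCS: identities and cells
-/

set_option autoImplicit false

namespace Pool.OCS.N43

open Finset Real
open Pool.Agent.H49.Ent Pool.Agent.H32.Dense Pool.STK Pool.KAF

variable {d : Dat}

/-- The form of a pair in the coordinates of the exact point at the base. -/
theorem ZR_base (w : d.Om × d.Om) (l : d.Lam) :
    d.ZR (d.T w.1) (d.T w.2) l = d.ta w * d.ct (d.T w.1) l -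
      ∑ j, d.sg w j * d.pt (d.T w.1) l j - d.ta w * ∑ j, d.sg w j * d.omR l j := by
  unfold Dat.ZR Dat.ZV Dat.ct Dat.pt Dat.V Dat.sg Dat.ta Dat.beR Dat.yR Dat.omR
  simp only [Fin.sum_univ_two]
  ring

/-- The direction of a partner relative to the pair `w`. -/
noncomputable def gv (d : Dat) (w : d.Om × d.Om) (ω : d.Om) (j : Fin 2) : ℝ :=
  d.sg (w.1, ω) j - d.ta (w.1, ω) * d.ch w j

/-- The form of the partner `ω` of the base relative to the pair `w`. -/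
theorem ZR_rel (w : d.Om × d.Om) (ω : d.Om) (l : d.Lam) (h : d.ta w ≠ 0) :
    d.ZR (d.T w.1) (d.T ω) l = d.ta (w.1, ω) * (d.ZR (d.T w.1) (d.T w.2) l / d.ta w) -
      ∑ j, gv d w ω j * d.pt (d.T w.1) l j -
      d.ta (w.1, ω) * ∑ j, (d.sg (w.1, ω) j - d.sg w j) * d.omR l j := by
  have h1 := ZR_base (d := d) (w.1, ω) l
  have h2 := ZR_base (d := d) w l
  simp only at h1
  rw [h1, h2]
  unfold gv Dat.ch
  simp only [Fin.sum_univ_two]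
  field_simp
  ring

/-- The difference of the forms of two lines. -/
theorem ZR_dif (w : d.Om × d.Om) (ω : d.Om) (l l' : d.Lam) (h : d.ta w ≠ 0) :
    d.ZR (d.T w.1) (d.T ω) l - d.ZR (d.T w.1) (d.T ω) l' =
      d.ta (w.1, ω) * (d.ZR (d.T w.1) (d.T w.2) l / d.ta w -
        d.ZR (d.T w.1) (d.T w.2) l' / d.ta w) -
      ∑ j, gv d w ω j * (d.pt (d.T w.1) l j - d.pt (d.T w.1) l' j) +
      -(d.ta (w.1, ω) * ∑ j, (d.sg (w.1, ω) j - d.sg w j) * (d.omR l j - d.omR l' j)) := by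
  rw [ZR_rel w ω l h, ZR_rel w ω l' h]
  simp only [Fin.sum_univ_two]
  ring

/-- Equal floors. -/
theorem floor_near {s : ℤ} {x y : ℝ} (h : ⌊(2 : ℝ) ^ s * x⌋ = ⌊(2 : ℝ) ^ s * y⌋) :
    |x - y| ≤ (2 : ℝ) ^ (-s) := by
  have h1 := Int.floor_le ((2 : ℝ) ^ s * x)
  have h2 := Int.lt_floor_add_one ((2 : ℝ) ^ s * x)
  have h3 := Int.floor_le ((2 : ℝ) ^ s * y)
  have h4 := Int.lt_floor_add_one ((2 : ℝ) ^ s * y)
  rw [h] at h1 h2
  have h5 : |(2 : ℝ) ^ s * (x - y)| ≤ 1 := by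
    rw [abs_le]
    constructor <;> nlinarith
  rw [abs_mul, abs_of_pos (by positivity : (0 : ℝ) < (2 : ℝ) ^ s)] at h5
  rw [zpow_neg]
  have h6 : (0 : ℝ) < (2 : ℝ) ^ s := by positivity
  rw [← one_div, le_div_iff₀ h6]
  linarith

theorem floor_near' {s : ℕ} {x y : ℝ} (h : ⌊(2 : ℝ) ^ s * x⌋ = ⌊(2 : ℝ) ^ s * y⌋) :
    |x - y| ≤ (2 : ℝ) ^ (-(s : ℤ)) := by
  apply floor_near
  rw [zpow_natCast]
  exact h

section Cell

variable {mu : d.Om × d.Om → ℤ} {lam s : ℕ} {v w : d.Om × d.Om}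

theorem GS_T1 (h : d.GS mu lam s v = d.GS mu lam s w) : d.T v.1 = d.T w.1 := (Prod.ext_iff.mp h).1

theorem GS_T2 (h : d.GS mu lam s v = d.GS mu lam s w) : d.T v.2 = d.T w.2 :=
  (Prod.ext_iff.mp (Prod.ext_iff.mp h).2).1

theorem GS_mu (h : d.GS mu lam s v = d.GS mu lam s w) : mu v = mu w :=
  (Prod.ext_iff.mp (Prod.ext_iff.mp (Prod.ext_iff.mp h).2).2).1

theorem GS_pt (h : d.GS mu lam s v = d.GS mu lam s w) (j : Fin 2) :
    |d.pt (d.T w.1) (d.L w.1) j - d.pt (d.T w.1) (d.L v.1) j| ≤ (2 : ℝ) ^ (-(s : ℤ)) := by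
  have h1 := (Prod.ext_iff.mp (Prod.ext_iff.mp (Prod.ext_iff.mp (Prod.ext_iff.mp h).2).2).2).1
  have h2 : d.ptd s v.1 j = d.ptd s w.1 j := congrFun h1 j
  unfold Dat.ptd at h2
  rw [GS_T1 h] at h2
  exact floor_near' h2.symm

theorem GS_om (h : d.GS mu lam s v = d.GS mu lam s w) (j : Fin 2) :
    |d.omR (d.L w.1) j - d.omR (d.L v.1) j| ≤ (2 : ℝ) ^ ((lam : ℤ) - s) := by
  have h1 := (Prod.ext_iff.mp (Prod.ext_iff.mp (Prod.ext_iff.mp (Prod.ext_iff.mp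
    (Prod.ext_iff.mp h).2).2).2).2).1
  have h2 : d.omd (s - lam) (d.L v.1) j = d.omd (s - lam) (d.L w.1) j := congrFun h1 j
  unfold Dat.omd at h2
  refine (floor_near' h2.symm).trans ?_
  exact zpow_le_zpow_right₀ (by norm_num) (by omega)

theorem GS_us (h : d.GS mu lam s v = d.GS mu lam s w) :
    |d.ZR (d.T w.1) (d.T w.2) (d.L w.1) / d.ta w - d.ZR (d.T w.1) (d.T w.2) (d.L v.1) / d.ta w| ≤
      (2 : ℝ) ^ (-((s : ℤ) + mu w)) := by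
  have h1 := (Prod.ext_iff.mp (Prod.ext_iff.mp (Prod.ext_iff.mp (Prod.ext_iff.mp
    (Prod.ext_iff.mp h).2).2).2).2).2
  have h2 : ⌊(2 : ℝ) ^ ((s : ℤ) + mu v) * d.us v⌋ = ⌊(2 : ℝ) ^ ((s : ℤ) + mu w) * d.us w⌋ := h1
  unfold Dat.us Dat.ta at h2
  rw [GS_T1 h, GS_T2 h, GS_mu h] at h2
  exact floor_near h2.symm

end Cell

/-- Samples with the same digits of the time are near in time. -/
theorem ta_le {i : ℕ} {ω ω' : d.Om} (h : d.Ti i ω = d.Ti i ω') :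
    |d.ta (ω, ω')| ≤ (2 : ℝ) ^ (-(i : ℤ)) := by
  unfold Dat.Ti at h
  exact floor_near' h.symm

/-- The support of the triples. -/
theorem Q3_supp (hP : ∀ ω, 0 ≤ d.P ω) {j i : ℕ} {u : (d.Om × d.Om) × d.Om}
    (hu : 0 < d.Q3 j i u) : 0 < d.Qp j u.1 ∧ |d.ta u.1| ≤ (2 : ℝ) ^ (-(j : ℤ)) ∧
      |d.ta (u.1.1, u.2)| ≤ (2 : ℝ) ^ (-(i : ℤ)) ∧ 0 < d.P u.1.1 := by
  have hQ0 : ∀ w, 0 ≤ d.Qp j w := fun w => dbl_nonneg hP w
  obtain ⟨h1, -, h3⟩ := (glue_pos_iff hQ0 hP u).1 hu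
  have h4 := dbl_eq (b := fun ω => (d.L ω, d.Ti j ω)) hP h1
  refine ⟨h1, ta_le (Prod.ext_iff.mp h4).2, ta_le (Prod.ext_iff.mp h3).2, ?_⟩
  exact (dbl_fst (b := fun ω => (d.L ω, d.Ti j ω)) hP).pos hQ0 h1

/-- The bad triples. -/
def NB (d : Dat) (m : ℤ) (mu : d.Om × d.Om → ℤ) (j k' a i : ℕ) :
    Set ((d.Om × d.Om) × d.Om) :=
  {u | u.1 ∈ Bg d j k' m ∧ (2 : ℝ) ^ (-((i : ℤ) + k')) ≤ |d.ta (u.1.1, u.2)| ∧
    (2 : ℝ) ^ ((a : ℤ) + 4 - mu u.1) * |d.ta (u.1.1, u.2)| < ‖gv d u.1 u.2‖}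

theorem Bg_ta {m : ℤ} {j k' : ℕ} {w : d.Om × d.Om} (h : w ∈ Bg d j k' m) : 0 < |d.ta w| :=
  lt_of_lt_of_le (by positivity) h.2

theorem Bg_ch {m : ℤ} {j k' : ℕ} {w : d.Om × d.Om} (h : w ∈ Bg d j k' m) (r : Fin 2) :
    |d.ch w r| ≤ (2 : ℝ) ^ (-m) := by
  have h0 := Bg_ta h
  unfold Dat.ch
  rw [abs_div, div_le_iff₀ h0]
  exact (norm_le_pi_norm (d.sg w) r).trans h.1

/-- Size of the slope differences on the bad triples. -/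
theorem sg_bd {A m : ℤ} {j k' i : ℕ} {u : (d.Om × d.Om) × d.Om} (hB : u.1 ∈ Bg d j k' m)
    (h1 : |d.ta u.1| ≤ (2 : ℝ) ^ (-(j : ℤ))) (h2 : |d.ta (u.1.1, u.2)| ≤ (2 : ℝ) ^ (-(i : ℤ)))
    (hj : A ≤ j) (hi : A ≤ i) (r : Fin 2) :
    |d.sg (u.1.1, u.2) r - d.sg u.1 r| ≤ ‖gv d u.1 u.2‖ + 2 * (2 : ℝ) ^ (-(m + A)) := by
  have e1 : d.sg (u.1.1, u.2) r - d.sg u.1 r =
      gv d u.1 u.2 r + d.ta (u.1.1, u.2) * d.ch u.1 r - d.sg u.1 r := by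
    unfold gv; ring
  have h3 : |d.ta (u.1.1, u.2) * d.ch u.1 r| ≤ (2 : ℝ) ^ (-(m + A)) := by
    rw [abs_mul]
    refine (mul_le_mul h2 (Bg_ch hB r) (abs_nonneg _) (by positivity)).trans ?_
    rw [← zpow_add₀ (by norm_num)]
    exact zpow_le_zpow_right₀ (by norm_num) (by omega)
  have h4 : |d.sg u.1 r| ≤ (2 : ℝ) ^ (-(m + A)) := by
    refine (norm_le_pi_norm (d.sg u.1) r).trans (hB.1.trans ?_)
    refine (mul_le_mul_of_nonneg_left h1 (by positivity)).trans ?_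
    rw [← zpow_add₀ (by norm_num)]
    exact zpow_le_zpow_right₀ (by norm_num) (by omega)
  have h5 := norm_le_pi_norm (gv d u.1 u.2) r
  rw [Real.norm_eq_abs] at h5
  rw [e1]
  have h6 := abs_sub (gv d u.1 u.2 r + d.ta (u.1.1, u.2) * d.ch u.1 r) (d.sg u.1 r)
  have h7 := abs_add_le (gv d u.1 u.2 r) (d.ta (u.1.1, u.2) * d.ch u.1 r)
  linarith

/-- The form of a bad triple on a cell. -/
theorem nls_pt {n i₀ k₆ lam : ℕ} {m : ℤ} {mu : d.Om × d.Om → ℤ}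
    (hL : LabS d n i₀ k₆ lam m mu)
    {j i k' a s k k₁ : ℕ} (hk₆ : 2 ≤ k₆) (hij : i₀ ≤ j) (hi : i₀ ≤ i) (hia : a + 5 + lam ≤ i)
    (hk : 4 ≤ k) (hk₁ : a + 1 ≤ k₁) {u : (d.Om × d.Om) × d.Om} {v : d.Om × d.Om}
    (h1 : |d.ta u.1| ≤ (2 : ℝ) ^ (-(j : ℤ)))
    (h2 : |d.ta (u.1.1, u.2)| ≤ (2 : ℝ) ^ (-(i : ℤ))) (hu : u ∈ NB d m mu j k' a i)
    (hG : d.GS mu lam s v = d.GS mu lam s u.1) :
    |d.ZR (d.T u.1.1) (d.T u.2) (d.L u.1.1) - d.ZR (d.T u.1.1) (d.T u.2) (d.L v.1)| ≤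
      (2 : ℝ) ^ ((k : ℤ) - (s + Pool.OC.sc ‖gv d u.1 u.2‖)) ∧
    (|∑ r, gv d u.1 u.2 r * (d.pt (d.T u.1.1) (d.L v.1) r - d.pt (d.T u.1.1) (d.L u.1.1) r)| <
        ‖gv d u.1 u.2‖ * (2 : ℝ) ^ (-((s : ℤ) + a)) ∨
      (2 : ℝ) ^ (-((s : ℤ) + Pool.OC.sc ‖gv d u.1 u.2‖ + k₁)) ≤
        |d.ZR (d.T u.1.1) (d.T u.2) (d.L u.1.1) - d.ZR (d.T u.1.1) (d.T u.2) (d.L v.1)|) := by
  obtain ⟨hB, htau, hbad⟩ := hu
  have ht0 : d.ta u.1 ≠ 0 := abs_pos.1 (Bg_ta hB)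
  have htau0 : 0 < |d.ta (u.1.1, u.2)| := lt_of_lt_of_le (by positivity) htau
  have hg0 : 0 < ‖gv d u.1 u.2‖ := lt_trans (by positivity) hbad
  have hg0' : 0 < |‖gv d u.1 u.2‖| := by rw [abs_norm]; exact hg0
  obtain ⟨hq, hq'⟩ := Pool.M5.N2.sc_spec hg0'
  rw [abs_norm] at hq hq'
  have hdif := ZR_dif u.1 u.2 (d.L u.1.1) (d.L v.1) ht0
  have hpt : ∀ r, |d.pt (d.T u.1.1) (d.L u.1.1) r - d.pt (d.T u.1.1) (d.L v.1) r| ≤
      (2 : ℝ) ^ (-(s : ℤ)) := GS_pt hG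
  have hmain := Pool.M5.N2.form_pt (k' := k) (k₁ := k₁) (s := s) (a := a)
    (g := gv d u.1 u.2)
    (dy := fun r => d.pt (d.T u.1.1) (d.L u.1.1) r - d.pt (d.T u.1.1) (d.L v.1) r)
    (D := d.ZR (d.T u.1.1) (d.T u.2) (d.L u.1.1) - d.ZR (d.T u.1.1) (d.T u.2) (d.L v.1))
    (U := d.ta (u.1.1, u.2) * (d.ZR (d.T u.1.1) (d.T u.1.2) (d.L u.1.1) / d.ta u.1 -
        d.ZR (d.T u.1.1) (d.T u.1.2) (d.L v.1) / d.ta u.1))
    (E := -(d.ta (u.1.1, u.2) * ∑ j, (d.sg (u.1.1, u.2) j - d.sg u.1 j) *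
      (d.omR (d.L u.1.1) j - d.omR (d.L v.1) j)))
    hq hq' hdif ?_ ?_ hpt (by omega) hk₁
  · refine ⟨hmain.1, ?_⟩
    rcases hmain.2 with h3 | h3
    · left
      have e1 : ∑ r, gv d u.1 u.2 r * (d.pt (d.T u.1.1) (d.L v.1) r -
          d.pt (d.T u.1.1) (d.L u.1.1) r) =
          -∑ r, gv d u.1 u.2 r * (d.pt (d.T u.1.1) (d.L u.1.1) r -
            d.pt (d.T u.1.1) (d.L v.1) r) := by
        rw [← Finset.sum_neg_distrib]
        exact Finset.sum_congr rfl fun r _ => by ring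
      rw [e1, abs_neg]
      exact h3
    · exact Or.inr h3
  · -- the unknown number
    rw [abs_mul]
    have h3 := mul_le_mul_of_nonneg_left (GS_us hG) htau0.le
    refine h3.trans ?_
    have e3 : |d.ta (u.1.1, u.2)| * (2 : ℝ) ^ (-((s : ℤ) + mu u.1)) =
        ((2 : ℝ) ^ ((a : ℤ) + 4 - mu u.1) * |d.ta (u.1.1, u.2)|) *
          (2 : ℝ) ^ (-((s : ℤ) + a + 4)) := by
      have e4 : (2 : ℝ) ^ (-((s : ℤ) + mu u.1)) =
          (2 : ℝ) ^ ((a : ℤ) + 4 - mu u.1) * (2 : ℝ) ^ (-((s : ℤ) + a + 4)) := by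
        rw [← zpow_add₀ (by norm_num)]; congr 1; ring
      rw [e4]; ring
    rw [e3]
    refine mul_le_mul hbad.le ?_ (by positivity) (norm_nonneg _)
    exact zpow_le_zpow_right₀ (by norm_num) (by omega)
  · -- the velocities
    rw [abs_neg, abs_mul]
    have hsg := sg_bd (A := i₀) hB h1 h2 (by exact_mod_cast hij) (by exact_mod_cast hi)
    have h3 : |∑ j, (d.sg (u.1.1, u.2) j - d.sg u.1 j) *
        (d.omR (d.L u.1.1) j - d.omR (d.L v.1) j)| ≤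
        2 * ((‖gv d u.1 u.2‖ + 2 * (2 : ℝ) ^ (-(m + (i₀ : ℤ)))) * (2 : ℝ) ^ ((lam : ℤ) - s)) := by
      rw [Fin.sum_univ_two]
      refine (abs_add_le _ _).trans ?_
      rw [abs_mul, abs_mul]
      have h4 := mul_le_mul (hsg 0) (GS_om hG 0) (abs_nonneg _) (by positivity)
      have h5 := mul_le_mul (hsg 1) (GS_om hG 1) (abs_nonneg _) (by positivity)
      linarith
    refine (mul_le_mul_of_nonneg_left h3 htau0.le).trans ?_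
    have hmu := hL.hi u.1
    -- the first part
    have h6 : |d.ta (u.1.1, u.2)| * ‖gv d u.1 u.2‖ ≤
        (2 : ℝ) ^ (-((a : ℤ) + 5 + lam)) * ‖gv d u.1 u.2‖ := by
      refine mul_le_mul_of_nonneg_right (h2.trans ?_) (norm_nonneg _)
      exact zpow_le_zpow_right₀ (by norm_num) (by omega)
    -- the second part
    have h7 : |d.ta (u.1.1, u.2)| * (2 : ℝ) ^ (-(m + (i₀ : ℤ))) ≤
        (2 : ℝ) ^ (-((a : ℤ) + 6 + lam)) * ‖gv d u.1 u.2‖ := by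
      have e5 : (2 : ℝ) ^ (-(m + (i₀ : ℤ))) ≤
          (2 : ℝ) ^ ((a : ℤ) + 4 - mu u.1) * (2 : ℝ) ^ (-((a : ℤ) + 6 + lam)) := by
        rw [← zpow_add₀ (by norm_num)]
        exact zpow_le_zpow_right₀ (by norm_num) (by omega)
      have e6 := mul_le_mul_of_nonneg_left e5 htau0.le
      have e7 := mul_le_mul_of_nonneg_right hbad.le
        (by positivity : (0 : ℝ) ≤ (2 : ℝ) ^ (-((a : ℤ) + 6 + lam)))
      linarith
    have e8 : (2 : ℝ) ^ (-((a : ℤ) + 5 + lam)) =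
        (1 / 4) * (2 : ℝ) ^ (-((a : ℤ) + 3 + lam)) := by
      rw [show -((a : ℤ) + 5 + lam) = (-2) + -((a : ℤ) + 3 + lam) by ring,
        zpow_add₀ (by norm_num : (2 : ℝ) ≠ 0)]
      norm_num
    have e9 : (2 : ℝ) ^ (-((a : ℤ) + 6 + lam)) =
        (1 / 8) * (2 : ℝ) ^ (-((a : ℤ) + 3 + lam)) := by
      rw [show -((a : ℤ) + 6 + lam) = (-3) + -((a : ℤ) + 3 + lam) by ring,
        zpow_add₀ (by norm_num : (2 : ℝ) ≠ 0)]
      norm_num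
    have e10 : (2 : ℝ) ^ (-((s : ℤ) + a + 3)) =
        (2 : ℝ) ^ (-((a : ℤ) + 3 + lam)) * (2 : ℝ) ^ ((lam : ℤ) - s) := by
      rw [← zpow_add₀ (by norm_num)]; congr 1; ring
    rw [e8] at h6
    rw [e9] at h7
    rw [e10]
    have h8 : 2 * (|d.ta (u.1.1, u.2)| * ‖gv d u.1 u.2‖ +
        2 * (|d.ta (u.1.1, u.2)| * (2 : ℝ) ^ (-(m + (i₀ : ℤ))))) ≤
        ‖gv d u.1 u.2‖ * (2 : ℝ) ^ (-((a : ℤ) + 3 + lam)) := by
      linarith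
    have h9 := mul_le_mul_of_nonneg_right h8
      (by positivity : (0 : ℝ) ≤ (2 : ℝ) ^ ((lam : ℤ) - s))
    linarith

end Pool.OCS.N43
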